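import Mathlib

set_option autoImplicit false
open Set
open Cardinal hiding univ

namespace Pool.Agent.Results.MP_dd23d5_gt.SmallIdeals

/-- Every family of at most `κ` sets of natural numbers all of whose finite subfamilies have
infinite intersection has an infinite set almost contained in all its members. -/
def PI (κ : Cardinal.{0}) : Prop :=
  ∀ 𝓕 : Set (Set ℕ), #𝓕 ≤ κ → (∀ 𝓖 ⊆ 𝓕, 𝓖.Finite → (⋂₀ 𝓖).Infinite) →
    ∃ I : Set ℕ, I.Infinite ∧ ∀ A ∈ 𝓕, (I \ A).Finite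

/-- The set `V` is way below `W`. -/
def WB {P : Type} [TopologicalSpace P] (V W : Set P) : Prop :=
  ∀ 𝒲 : Set (Set P), (∀ O ∈ 𝒲, IsOpen O) → W ⊆ ⋃₀ 𝒲 → ∃ 𝒯 ⊆ 𝒲, 𝒯.Finite ∧ V ⊆ ⋃₀ 𝒯

theorem ultrafilter_lim {P : Type} [TopologicalSpace P] {V W : Set P} (h : WB V W)
    (f : Ultrafilter P) (hf : V ∈ f) : ∃ w ∈ W, (f : Filter P) ≤ nhds w := by
  by_contra hcon
  push Not at hcon
  have h1 : ∀ w ∈ W, ∃ O, IsOpen O ∧ w ∈ O ∧ O ∉ f := by
    intro w hw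
    have := hcon w hw
    rw [Filter.not_le] at this
    obtain ⟨s, hs, hsf⟩ := this
    obtain ⟨O, hOs, hO, hwO⟩ := mem_nhds_iff.1 hs
    exact ⟨O, hO, hwO, fun hc => hsf (Filter.mem_of_superset hc hOs)⟩
  obtain ⟨𝒯, hT, hfin, hcov⟩ := h {O | IsOpen O ∧ O ∉ f} (fun O hO => hO.1) (by
    intro w hw
    obtain ⟨O, hO, hwO, hOf⟩ := h1 w hw
    exact ⟨O, ⟨hO, hOf⟩, hwO⟩)
  have h2 : ⋃₀ 𝒯 ∈ f := Filter.mem_of_superset hf hcov
  rw [Ultrafilter.finite_sUnion_mem_iff hfin] at h2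
  obtain ⟨O, hO, hOf⟩ := h2
  exact (hT hO).2 hOf

theorem sUnion_le {α : Type} (f : ℕ → Set α) (hf : Monotone f) {𝒯 : Set (Set α)}
    (hfin : 𝒯.Finite) (hT : 𝒯 ⊆ range f) : ∃ N, ⋃₀ 𝒯 ⊆ f N := by
  induction 𝒯, hfin using Set.Finite.induction_on with
  | empty => exact ⟨0, by simp⟩
  | insert _ _ ih =>
    rename_i a T _ _
    obtain ⟨N1, h1⟩ := ih fun x hx => hT (mem_insert_of_mem _ hx)
    obtain ⟨N2, h2⟩ := hT (mem_insert _ _)
    refine ⟨max N1 N2, ?_⟩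
    rw [sUnion_insert]
    exact union_subset (h2 ▸ hf (le_max_right _ _)) (h1.trans (hf (le_max_left _ _)))

variable {P : Type} [PartialOrder P] [TopologicalSpace P] [Topology.IsScott P univ]

omit [TopologicalSpace P] [Topology.IsScott P univ] in
theorem avoid {D : Set P} (hne : D.Nonempty) (hdir : DirectedOn (· ≤ ·) D) {v : ℕ → P}
    {T : Set ℕ} (hT : T.Finite) (h : ∀ n ∈ T, ∃ d ∈ D, ¬ d ≤ v n) :
    ∃ d ∈ D, ∀ n ∈ T, ¬ d ≤ v n := by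
  induction T, hT using Set.Finite.induction_on with
  | empty =>
    obtain ⟨d, hd⟩ := hne
    exact ⟨d, hd, fun x hx => absurd hx (notMem_empty x)⟩
  | insert _ _ ih =>
    rename_i a T _ _
    obtain ⟨d1, hd1, h1⟩ := ih fun x hx => h x (mem_insert_of_mem _ hx)
    obtain ⟨d2, hd2, h2⟩ := h a (mem_insert _ _)
    obtain ⟨d, hd, hle1, hle2⟩ := hdir d1 hd1 d2 hd2
    refine ⟨d, hd, fun x hx => ?_⟩
    rcases mem_insert_iff.1 hx with rfl | hx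
    · exact fun hc => h2 (hle2.trans hc)
    · exact fun hc => h1 x hx (hle1.trans hc)

theorem isOpen_iff' {U : Set P} : IsOpen U ↔ IsUpperSet U ∧ DirSupInaccOn univ U :=
  Topology.IsScott.isOpen_iff_isUpperSet_and_dirSupInaccOn

theorem exists_lower_bound {V W : Set P} (hW : IsOpen W) (h : WB V W) (v : ℕ → P)
    (hv : ∀ n, v n ∈ V) : ∃ d ∈ W, {n | d ≤ v n}.Infinite := by
  by_contra hcon
  push Not at hcon
  have hopen : ∀ k : ℕ, IsOpen (W ∩ {w | ∀ n, k ≤ n → ¬ w ≤ v n}) := by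
    intro k
    rw [isOpen_iff']
    obtain ⟨hup, hacc⟩ := isOpen_iff'.1 hW
    refine ⟨?_, ?_⟩
    · rintro a b hab ⟨ha, ha'⟩
      exact ⟨hup hab ha, fun n hn hc => ha' n hn (hab.trans hc)⟩
    · intro D _ hne hdir s hs hsW
      obtain ⟨d0, hd0, hd0W⟩ := hacc (mem_univ D) hne hdir hs hsW.1
      have hfin : {n | d0 ≤ v n}.Finite := hcon d0 hd0W
      have hne' : {d ∈ D | d0 ≤ d}.Nonempty := ⟨d0, hd0, le_rfl⟩
      have hdir' : DirectedOn (· ≤ ·) {d ∈ D | d0 ≤ d} := by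
        rintro a ⟨ha, ha'⟩ b ⟨hb, _⟩
        obtain ⟨c, hc, h1, h2⟩ := hdir a ha b hb
        exact ⟨c, ⟨hc, ha'.trans h1⟩, h1, h2⟩
      obtain ⟨d, ⟨hd, hd0d⟩, hd'⟩ := avoid hne' hdir' (v := v)
        (T := {n | d0 ≤ v n ∧ k ≤ n}) (hfin.subset fun n hn => hn.1) (by
          rintro n ⟨_, hn⟩
          by_contra hc
          push Not at hc
          refine hsW.2 n hn (hs.2 fun d hd => ?_)
          obtain ⟨c, hc1, h1, h2⟩ := hdir d hd d0 hd0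
          exact h1.trans (hc c ⟨hc1, h2⟩))
      exact ⟨d, hd, hup hd0d hd0W, fun n hn hc => hd' n ⟨hd0d.trans hc, hn⟩ hc⟩
  obtain ⟨𝒯, hT, hfin, hcov⟩ := h (range fun k : ℕ => W ∩ {w | ∀ n, k ≤ n → ¬ w ≤ v n}) (by
    rintro _ ⟨k, rfl⟩; exact hopen k) (by
    intro w hw
    obtain ⟨k, hk⟩ := (hcon w hw).bddAbove
    refine ⟨_, ⟨k + 1, rfl⟩, hw, fun n hn hc => ?_⟩
    have : n ≤ k := hk hc
    omega)
  obtain ⟨N, hN⟩ := sUnion_le (fun k : ℕ => W ∩ {w | ∀ n, k ≤ n → ¬ w ≤ v n}) (by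
    rintro a b hab w ⟨hw, hw'⟩
    exact ⟨hw, fun n hn => hw' n (hab.trans hn)⟩) hfin hT
  exact (hN (hcov (hv N))).2 N le_rfl le_rfl

/-- Lemma B. -/
theorem cover_lift {W U Z : Set P} (h : WB W U) (n : ℕ)
    (hZ : ∀ Z₀ : Finset P, (Z₀ : Set P) ⊆ Z →
      ∃ G : Fin n → P, (∀ i, G i ∈ W) ∧ ∀ z ∈ Z₀, ∃ i, G i ≤ z) :
    ∃ H : Fin n → P, (∀ i, H i ∈ U) ∧ ∀ z ∈ Z, ∃ i, H i ≤ z := by
  have hZ' : ∀ Z₀ : Finset Z, ∃ G : Fin n → P, (∀ i, G i ∈ W) ∧ ∀ z ∈ Z₀, ∃ i, G i ≤ z := by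
    intro Z₀
    obtain ⟨G, h1, h2⟩ := hZ (Z₀.map (Function.Embedding.subtype _)) (by
      intro x hx
      simp at hx
      exact hx.1)
    exact ⟨G, h1, fun z hz => h2 z (by simpa using hz)⟩
  choose G hGW hG using hZ'
  have hlim : ∀ i, ∃ x ∈ U,
      (((Ultrafilter.of (Filter.atTop : Filter (Finset Z))).map fun Z₀ => G Z₀ i :
        Ultrafilter P) : Filter P) ≤ nhds x := by
    intro i
    exact ultrafilter_lim h _ (by
      rw [Ultrafilter.mem_map]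
      exact Filter.univ_mem' fun Z₀ => hGW Z₀ i)
  choose H hHU hH using hlim
  refine ⟨H, hHU, fun z hz => ?_⟩
  have hev : ∀ᶠ Z₀ in (Ultrafilter.of (Filter.atTop : Filter (Finset Z)) :
      Filter (Finset Z)), ∃ i, G Z₀ i ≤ z := by
    refine Ultrafilter.of_le _ ?_
    filter_upwards [Filter.eventually_ge_atTop ({⟨z, hz⟩} : Finset Z)] with Z₀ hZ₀
    exact hG Z₀ ⟨z, hz⟩ (hZ₀ (by simp))
  rw [Ultrafilter.eventually_exists_iff] at hev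
  obtain ⟨i, hi⟩ := hev
  refine ⟨i, ?_⟩
  exact isClosed_iff_ultrafilter.1 (isClosed_Iic (a := z)) _ _ (hH i) hi

/-- Main lemma. -/
theorem fin_cover {κ : Cardinal.{0}} (hκ : ℵ₀ ≤ κ) (hPI : PI κ) (hP : ∀ x : P, #(Iic x) ≤ κ)
    {V₁ V₀ U : Set P} (hV₀ : IsOpen V₀) (hsub : V₁ ⊆ V₀) (h1 : WB V₁ V₀) (h0 : WB V₀ U) :
    ∃ F : Set P, F.Finite ∧ F ⊆ U ∧ ∀ z ∈ V₁, ∃ x ∈ F, x ≤ z := by
  by_contra hcon
  have hZ : ∀ n : ℕ, ∃ Z₀ : Finset P, (Z₀ : Set P) ⊆ V₁ ∧ ∀ G : Fin n → P,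
      (∀ i, G i ∈ V₀) → ∃ z ∈ Z₀, ∀ i, ¬ G i ≤ z := by
    intro n
    by_contra hn
    push Not at hn
    obtain ⟨H, hH1, hH2⟩ := cover_lift (Z := V₁) h0 n fun Z₀ hZ₀ => by
      obtain ⟨G, hG1, hG2⟩ := hn Z₀ hZ₀
      exact ⟨G, hG1, hG2⟩
    refine hcon ⟨range H, finite_range H, ?_, fun z hz => ?_⟩
    · rintro _ ⟨i, rfl⟩; exact hH1 i
    · obtain ⟨i, hi⟩ := hH2 z hz
      exact ⟨H i, ⟨i, rfl⟩, hi⟩
  choose Z hZV hZG using hZ
  set W : Set P := ⋃ n, (Z n : Set P) with hW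
  have hWV : W ⊆ V₁ := iUnion_subset hZV
  have hWc : W.Countable := countable_iUnion fun n => (Z n).countable_toSet
  have hWnc : ∀ F : Set P, F.Finite → F ⊆ V₀ → ∃ w ∈ W, ∀ x ∈ F, ¬ x ≤ w := by
    intro F hF hFV
    obtain ⟨G, hG⟩ : ∃ G : Fin (Nat.card F) → P, range G = F := by
      have := hF.to_subtype
      exact ⟨fun i => ((Finite.equivFin F).symm i : P), by
        ext x; constructor
        · rintro ⟨i, rfl⟩; exact Subtype.coe_prop _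
        · intro hx; exact ⟨Finite.equivFin F ⟨x, hx⟩, by
            show ((Finite.equivFin F).symm (Finite.equivFin F ⟨x, hx⟩) : P) = x
            rw [Equiv.symm_apply_apply]⟩⟩
    obtain ⟨z, hz, hz'⟩ := hZG (Nat.card F) G fun i => hFV (hG ▸ mem_range_self i)
    refine ⟨z, mem_iUnion.2 ⟨_, hz⟩, fun x hx => ?_⟩
    rw [← hG] at hx
    obtain ⟨i, rfl⟩ := hx
    exact hz' i
  have hWne : W.Nonempty := by
    obtain ⟨w, hw, _⟩ := hWnc ∅ finite_empty (empty_subset _)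
    exact ⟨w, hw⟩
  obtain ⟨w, hw⟩ := hWc.exists_eq_range hWne
  -- the family
  let A : P → Set ℕ := fun d => {j | ¬ d ≤ w j}
  have hcard : #(A '' V₀) ≤ κ := by
    have h1 : A '' V₀ ⊆ {univ} ∪ ⋃ j : ℕ, A '' (Iic (w j)) := by
      rintro _ ⟨d, hd, rfl⟩
      by_cases hd' : ∃ j, d ≤ w j
      · obtain ⟨j, hj⟩ := hd'
        exact Or.inr (mem_iUnion.2 ⟨j, d, hj, rfl⟩)
      · refine Or.inl ?_
        push Not at hd'
        exact eq_univ_of_forall hd'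
    refine (mk_le_mk_of_subset h1).trans ((mk_union_le _ _).trans ?_)
    refine add_le_of_le hκ ?_ ?_
    · rw [mk_singleton]
      exact one_le_aleph0.trans hκ
    · refine (mk_iUnion_le _).trans ?_
      refine (mul_le_mul' (mk_nat.le.trans hκ) (ciSup_le' fun j =>
        (mk_image_le).trans (hP (w j)))).trans (mul_eq_self hκ).le
  have hinf : ∀ 𝓖 ⊆ A '' V₀, 𝓖.Finite → (⋂₀ 𝓖).Infinite := by
    intro 𝓖 hG hGf hfin
    obtain ⟨F, hFV, hFf, hFG⟩ : ∃ F ⊆ V₀, F.Finite ∧ A '' F = 𝓖 := by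
      obtain ⟨F, h1, h2, h3⟩ := exists_subset_image_finite_and (f := A) (s := V₀)
        (p := fun t => t = 𝓖) |>.1 ⟨𝓖, hG, hGf, rfl⟩
      exact ⟨F, h1, h2, h3⟩
    obtain ⟨z, hz, hz'⟩ := hWnc (F ∪ w '' (⋂₀ 𝓖)) (hFf.union (hfin.image _)) (union_subset hFV (by
      rintro _ ⟨j, _, rfl⟩
      exact hsub (hWV (hw ▸ mem_range_self j))))
    rw [hw] at hz
    obtain ⟨j, rfl⟩ := hz
    refine hz' (w j) (Or.inr ⟨j, ?_, rfl⟩) le_rfl
    rw [← hFG]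
    rintro _ ⟨d, hd, rfl⟩
    exact hz' d (Or.inl hd)
  obtain ⟨I, hI, hIA⟩ := hPI _ hcard hinf
  obtain ⟨d, hd, hd'⟩ := exists_lower_bound hV₀ h1 (fun n => w (Nat.nth (· ∈ I) n))
    fun n => hWV (hw ▸ mem_range_self _)
  refine hd' ?_
  have hfin := hIA (A d) ⟨d, hd, rfl⟩
  have hinj : Function.Injective (Nat.nth (· ∈ I)) := Nat.nth_injective hI
  refine (hfin.preimage hinj.injOn).subset fun n hn => ?_
  exact ⟨Nat.nth_mem_of_infinite hI n, fun hc => hc hn⟩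

theorem wb_of_compact {X : Type} [TopologicalSpace X] {V K U : Set X} (hK : IsCompact K)
    (hV : V ⊆ K) (hU : K ⊆ U) : WB V U := by
  intro 𝒲 hO hcov
  obtain ⟨t, ht⟩ := hK.elim_finite_subcover (fun O : 𝒲 => (O : Set X)) (fun O => hO O.1 O.2)
    (by rw [← sUnion_eq_iUnion]; exact hU.trans hcov)
  refine ⟨Subtype.val '' (t : Set 𝒲), ?_, t.finite_toSet.image _, fun x hx => ?_⟩
  · rintro _ ⟨O, _, rfl⟩; exact O.2
  · obtain ⟨O, hO', hxO⟩ := mem_iUnion₂.1 (ht (hV hx))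
    exact ⟨O.1, ⟨O, hO', rfl⟩, hxO⟩

/-- Quasicontinuity. -/
theorem quasicont {κ : Cardinal.{0}} (hκ : ℵ₀ ≤ κ) (hPI : PI κ) (hP : ∀ x : P, #(Iic x) ≤ κ)
    [LocallyCompactSpace P] {U : Set P} (hU : IsOpen U) {x : P} (hx : x ∈ U) :
    ∃ F : Set P, F.Finite ∧ F ⊆ U ∧ ∃ V, IsOpen V ∧ x ∈ V ∧ ∀ z ∈ V, ∃ y ∈ F, y ≤ z := by
  obtain ⟨K, hK, hKU, hKc⟩ := local_compact_nhds (hU.mem_nhds hx)
  obtain ⟨K', hK', hKU', hKc'⟩ := local_compact_nhds (isOpen_interior.mem_nhds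
    (mem_interior_iff_mem_nhds.2 hK))
  obtain ⟨F, hF, hFU, hFc⟩ := fin_cover hκ hPI hP (isOpen_interior (s := K))
    (interior_subset.trans hKU') (wb_of_compact hKc' interior_subset hKU')
    (wb_of_compact hKc interior_subset hKU)
  exact ⟨F, hF, hFU, interior K', isOpen_interior, mem_interior_iff_mem_nhds.2 hK', hFc⟩

/-- Finite sets meeting a chain of sets. -/
theorem chain_meet {α : Type} {c : Set (Set α)} (hc : IsChain (· ≤ ·) c) (hne : c.Nonempty)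
    {F : Set α} (hF : F.Finite) (h : ∀ E ∈ c, (E ∩ F).Nonempty) : (⋂₀ c ∩ F).Nonempty := by
  by_contra hcon
  have h1 : ∀ x ∈ F, ∃ E ∈ c, x ∉ E := by
    intro x hx
    by_contra hx'
    push Not at hx'
    exact hcon ⟨x, fun E hE => hx' E hE, hx⟩
  have h2 : ∃ E ∈ c, ∀ x ∈ F, x ∉ E := by
    clear h hcon
    induction F, hF using Set.Finite.induction_on with
    | empty =>
      obtain ⟨E, hE⟩ := hne
      exact ⟨E, hE, fun x hx => absurd hx (notMem_empty x)⟩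
    | insert _ _ ih =>
      rename_i a T _ _
      obtain ⟨E1, hE1, h1'⟩ := ih fun x hx => h1 x (mem_insert_of_mem _ hx)
      obtain ⟨E2, hE2, h2'⟩ := h1 a (mem_insert _ _)
      rcases hc.total hE1 hE2 with hle | hle
      · refine ⟨E1, hE1, fun x hx => ?_⟩
        rcases mem_insert_iff.1 hx with rfl | hx
        · exact fun hc => h2' (hle hc)
        · exact h1' x hx
      · refine ⟨E2, hE2, fun x hx => ?_⟩
        rcases mem_insert_iff.1 hx with rfl | hx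
        · exact h2'
        · exact fun hc => h1' x hx (hle hc)
  obtain ⟨E, hE, hE'⟩ := h2
  obtain ⟨x, hx, hxF⟩ := h E hE
  exact hE' x hxF hx

/-- Quasicontinuous dcpos are sober. -/
theorem sober_of_quasicont
    (hdcpo : ∀ d : Set P, d.Nonempty → DirectedOn (· ≤ ·) d → ∃ x, IsLUB d x)
    (hQ : ∀ (U : Set P), IsOpen U → ∀ x ∈ U, ∃ F : Set P, F.Finite ∧ F ⊆ U ∧
      ∃ V, IsOpen V ∧ x ∈ V ∧ ∀ z ∈ V, ∃ y ∈ F, y ≤ z)
    {A : Set P} (hA : IsIrreducible A) (hAc : IsClosed A) : ∃ s, A = Iic s := by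
  have hAl : IsLowerSet A := Topology.IsScott.isLowerSet_of_isClosed hAc
  let 𝓕 : Set (Set P) := {F | F.Finite ∧ ∃ V, IsOpen V ∧ (A ∩ V).Nonempty ∧
    ∀ z ∈ V, ∃ y ∈ F, y ≤ z}
  have hmem : ∀ U : Set P, IsOpen U → (A ∩ U).Nonempty → ∃ F ∈ 𝓕, F ⊆ U := by
    rintro U hU ⟨x, hxA, hxU⟩
    obtain ⟨F, hF, hFU, V, hV, hxV, hVF⟩ := hQ U hU x hxU
    exact ⟨F, ⟨hF, V, hV, ⟨x, hxA, hxV⟩, hVF⟩, hFU⟩
  have hfilt : ∀ F1 ∈ 𝓕, ∀ F2 ∈ 𝓕, ∃ F ∈ 𝓕, ∀ z ∈ F, (∃ y ∈ F1, y ≤ z) ∧ ∃ y ∈ F2, y ≤ z := by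
    rintro F1 ⟨-, V1, hV1, hAV1, h1⟩ F2 ⟨-, V2, hV2, hAV2, h2⟩
    obtain ⟨F, hF, hFV⟩ := hmem (V1 ∩ V2) (hV1.inter hV2)
      (hA.2 V1 V2 hV1 hV2 hAV1 hAV2)
    exact ⟨F, hF, fun z hz => ⟨h1 z (hFV hz).1, h2 z (hFV hz).2⟩⟩
  -- Zorn
  let S : Set (Set P) := {E | IsLowerSet E ∧ E ⊆ A ∧ ∀ F ∈ 𝓕, (E ∩ F).Nonempty}
  have hAS : A ∈ S := by
    refine ⟨hAl, Subset.rfl, ?_⟩
    rintro F ⟨-, V, hV, ⟨x, hxA, hxV⟩, h⟩
    obtain ⟨y, hy, hyx⟩ := h x hxV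
    exact ⟨y, hAl hyx hxA, hy⟩
  obtain ⟨E, hEA, hEmin⟩ := zorn_superset_nonempty S (by
    intro c hcS hc hcne
    refine ⟨⋂₀ c, ⟨isLowerSet_sInter fun E hE => (hcS hE).1, ?_, ?_⟩, fun s hs => sInter_subset_of_mem hs⟩
    · obtain ⟨E, hE⟩ := hcne
      exact (sInter_subset_of_mem hE).trans (hcS hE).2.1
    · intro F hF
      exact chain_meet hc hcne hF.1 fun E hE => (hcS hE).2.2 F hF) A hAS
  obtain ⟨hEl, hEA', hEF⟩ := hEmin.prop
  have hEne : E.Nonempty := by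
    obtain ⟨F, hF, _⟩ := hmem univ isOpen_univ (by simpa using hA.1)
    exact (hEF F hF).mono inter_subset_left
  have hmiss : ∀ e ∈ E, ∃ F ∈ 𝓕, ∀ x ∈ E ∩ F, e ≤ x := by
    intro e he
    by_contra hcon
    push Not at hcon
    have h1 : E \ Ici e ∈ S := by
      refine ⟨fun a b hba ha => ⟨hEl hba ha.1, fun hc => ha.2 (le_trans hc hba)⟩,
        sdiff_subset.trans hEA', fun F hF => ?_⟩
      obtain ⟨x, hx, hx'⟩ := hcon F hF
      exact ⟨x, ⟨hx.1, hx'⟩, hx.2⟩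
    exact (hEmin.le_of_le h1 sdiff_subset he).2 le_rfl
  have hdir : DirectedOn (· ≤ ·) E := by
    intro a ha b hb
    obtain ⟨F1, hF1, h1⟩ := hmiss a ha
    obtain ⟨F2, hF2, h2⟩ := hmiss b hb
    obtain ⟨F, hF, h⟩ := hfilt F1 hF1 F2 hF2
    obtain ⟨x, hxE, hxF⟩ := hEF F hF
    obtain ⟨⟨y1, hy1, hy1x⟩, ⟨y2, hy2, hy2x⟩⟩ := h x hxF
    exact ⟨x, hxE, (h1 y1 ⟨hEl hy1x hxE, hy1⟩).trans hy1x,
      (h2 y2 ⟨hEl hy2x hxE, hy2⟩).trans hy2x⟩
  obtain ⟨s, hs⟩ := hdcpo E hEne hdir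
  have hsA : s ∈ A :=
    (Topology.IsScott.isClosed_iff_isLowerSet_and_dirSupClosed.1 hAc).2 hEA' hEne hdir hs
  refine ⟨s, Subset.antisymm (fun x hx => ?_) (fun x hx => hAl hx hsA)⟩
  by_contra hxs
  obtain ⟨F, hF, hFU⟩ := hmem (Iic s)ᶜ isClosed_Iic.isOpen_compl ⟨x, hx, hxs⟩
  obtain ⟨y, hyE, hyF⟩ := hEF F hF
  exact hFU hyF (hs.1 hyE)

theorem pi_aleph0 : PI ℵ₀ := by
  intro 𝓕 h𝓕 hinf
  rw [le_aleph0_iff_set_countable] at h𝓕
  rcases 𝓕.eq_empty_or_nonempty with rfl | hne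
  · exact ⟨univ, infinite_univ, fun A hA => absurd hA (notMem_empty A)⟩
  obtain ⟨A, rfl⟩ := h𝓕.exists_eq_range hne
  have hB : ∀ n, (⋂₀ (A '' Iic n)).Infinite := fun n =>
    hinf _ (image_subset_range _ _) ((finite_Iic n).image _)
  have hstep : ∀ n m : ℕ, ∃ k, m < k ∧ k ∈ ⋂₀ (A '' Iic n) := by
    intro n m
    obtain ⟨k, hk, hmk⟩ := (hB n).exists_gt m
    exact ⟨k, hmk, hk⟩
  choose g hg1 hg2 using hstep
  let s : ℕ → ℕ := fun n => Nat.rec 0 (fun n m => g n m) n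
  have hs : StrictMono s := strictMono_nat_of_lt_succ fun n => hg1 n (s n)
  refine ⟨range fun n => s (n + 1),
    infinite_range_of_injective (fun a b h => Nat.succ_injective (hs.injective h)), ?_⟩
  rintro _ ⟨n, rfl⟩
  refine ((finite_Iio n).image fun n => s (n + 1)).subset ?_
  rintro _ ⟨⟨m, rfl⟩, hm⟩
  refine ⟨m, ?_, rfl⟩
  by_contra hc
  exact hm (hg2 m (s m) (A n) ⟨n, mem_Iic.2 (not_lt.1 hc), rfl⟩)

/-- **Partial answer to Q1 (positive direction).**  Let `κ ≥ ℵ₀` be a cardinal such that every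
family of at most `κ` subsets of `ℕ` with infinite finite intersections has an infinite
pseudo-intersection (that is, `κ < 𝔭`).  If `P` is a dcpo all of whose principal ideals have at
most `κ` elements and `ΣP` is locally compact, then `ΣP` is sober; moreover `P` is
quasicontinuous.  The hypothesis on `κ` holds for `κ = ℵ₀`, so Q1 has a positive answer (in ZFC)
for dcpos whose principal ideals are countable. -/
theorem result :
    (∀ κ : Cardinal.{0}, ℵ₀ ≤ κ → PI κ →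
      ∀ (P : Type) [PartialOrder P] [TopologicalSpace P] [Topology.IsScott P Set.univ],
        (∀ d : Set P, d.Nonempty → DirectedOn (· ≤ ·) d → ∃ x, IsLUB d x) →
        (∀ x : P, #(Set.Iic x) ≤ κ) →
        LocallyCompactSpace P →
        QuasiSober P ∧ T0Space P ∧
          ∀ U : Set P, IsOpen U → ∀ x ∈ U, ∃ F : Set P, F.Finite ∧ F ⊆ U ∧
            x ∈ interior {z | ∃ y ∈ F, y ≤ z}) ∧
    (∀ (P : Type) [PartialOrder P] [TopologicalSpace P] [Topology.IsScott P Set.univ],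
        (∀ d : Set P, d.Nonempty → DirectedOn (· ≤ ·) d → ∃ x, IsLUB d x) →
        (∀ x : P, (Set.Iic x).Countable) →
        LocallyCompactSpace P →
        QuasiSober P ∧ T0Space P) := by
  have main : ∀ κ : Cardinal.{0}, ℵ₀ ≤ κ → PI κ →
      ∀ (P : Type) [PartialOrder P] [TopologicalSpace P] [Topology.IsScott P Set.univ],
        (∀ d : Set P, d.Nonempty → DirectedOn (· ≤ ·) d → ∃ x, IsLUB d x) →
        (∀ x : P, #(Set.Iic x) ≤ κ) →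
        LocallyCompactSpace P →
        QuasiSober P ∧ T0Space P ∧
          ∀ U : Set P, IsOpen U → ∀ x ∈ U, ∃ F : Set P, F.Finite ∧ F ⊆ U ∧
            x ∈ interior {z | ∃ y ∈ F, y ≤ z} := by
    intro κ hκ hPI P _ _ _ hdcpo hP hlc
    refine ⟨⟨?_⟩, inferInstance, ?_⟩
    · intro A hA hAc
      obtain ⟨s, rfl⟩ := sober_of_quasicont hdcpo
        (fun U hU x hx => quasicont hκ hPI hP hU hx) hA hAc
      exact ⟨s, by rw [isGenericPoint_def, Topology.IsScott.closure_singleton]⟩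
    · intro U hU x hx
      obtain ⟨F, hF, hFU, V, hV, hxV, hVF⟩ := quasicont hκ hPI hP hU hx
      exact ⟨F, hF, hFU, mem_interior.2 ⟨V, hVF, hV, hxV⟩⟩
  refine ⟨main, ?_⟩
  intro P _ _ _ hdcpo hP hlc
  obtain ⟨h1, h2, _⟩ := main ℵ₀ le_rfl pi_aleph0 P hdcpo
    (fun x => le_aleph0_iff_set_countable.2 (hP x)) hlc
  exact ⟨h1, h2⟩

end Pool.Agent.Results.MP_dd23d5_gt.SmallIdeals
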